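import Pool.Agent.TMX.Stmts

set_option autoImplicit false

namespace Pool.Agent.TMX.H89

open Finset
open Pool.Agent.Helper51_Max (I IsMax)

theorem bGap : BGap := by
  intro hTan hGapS hGapI N g M k w l hM hB y z z' hky hyz hzz' hz'l hy hz'
  have hlN := hB.lN
  have hz'N : z' ≤ N := le_trans hz'l hlN
  have hzN : z ≤ N := by omega
  have hyN : y ≤ N := by omega
  obtain ⟨r, hr⟩ := hM.attained z hzN
  have gle : ∀ v, v ≤ N → g v ≤ M v := fun v hv => Pool.Agent.Helper37_EM.g_le hM hv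
  have hfl : ∀ q, k ≤ q → q ≤ l → g w ≤ g q := by
    intro q hq1 hq2
    rcases le_total q w with h | h
    · exact hB.dn1 q w hq1 h le_rfl
    · exact hB.up2 w q le_rfl h hq2
  have hmax : ∀ i, y ≤ i → i ≤ z' → g i ≤ max (M y) (M z') := by
    intro i hi1 hi2
    rcases le_total i w with h | h
    · exact le_max_of_le_left (le_trans (hB.dn1 y i hky hi1 h) (gle y hyN))
    · exact le_max_of_le_right (le_trans (hB.up2 i z' h hi2 hz'l) (gle z' hz'N))
  obtain ⟨h1, h2, h3, h4, h5, ⟨i, hi1, hi2, hi3, hi4⟩, ⟨j, hj1, hj2, hj3, hj4⟩⟩ :=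
    hGapS hTan N g M hM y z z' r hyz hzz' hz'N hy hz' hr hmax
  have hwy : g w ≤ M y := le_trans (hfl y hky (by omega)) (gle y hyN)
  have hwz : g w ≤ M z' := le_trans (hfl z' (by omega) hz'l) (gle z' hz'N)
  have hC : ∀ q, 2 * z' ≤ q + z + r → q + z ≤ 2 * y + r → g w ≤ g q := by
    intro q hq1 hq2
    have hiq : i ≤ q := by omega
    have hqj : q ≤ j := by omega
    rcases le_total q k with h | h
    · have h6 := hB.up1 i q (Nat.zero_le _) hiq h
      linarith
    · rcases le_total q l with h' | h'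
      · exact hfl q h h'
      · have h6 := hB.dn2 q j h' hqj (by omega)
        linarith
  have hI := hGapI N g M hM y z z' r (g w) hyz hzz' h1 h2 h3 h4 h5 hr hC
  have hyz1 : (y : ℝ) ≤ z := by exact_mod_cast hyz.le
  have hzz1 : (z : ℝ) ≤ z' := by exact_mod_cast hzz'.le
  have e1 : (2 * ((y : ℝ) + r - z) + 1) * (M y - g w) ≤ (2 * (r : ℝ) + 1) * (M y - g w) :=
    mul_le_mul_of_nonneg_right (by linarith) (by linarith)
  have e2 : (2 * ((z : ℝ) + r - z') + 1) * (M z' - g w) ≤ (2 * (r : ℝ) + 1) * (M z' - g w) :=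
    mul_le_mul_of_nonneg_right (by linarith) (by linarith)
  have hpos : (0 : ℝ) < 2 * (r : ℝ) + 1 := by positivity
  have e3 : (2 * (r : ℝ) + 1) * (M z - g w) ≤ (2 * (r : ℝ) + 1) * ((M y - g w) + (M z' - g w)) := by
    rw [mul_add]
    linarith
  have e4 := le_of_mul_le_mul_left e3 hpos
  linarith

end Pool.Agent.TMX.H89
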