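import Pool.Agent.TMX.Stmts4

set_option autoImplicit false

namespace Pool.Agent.TMX.H89

open Finset
open Pool.Agent.Helper51_Max (I IsMax)
open Pool.Agent.Helper37_EM (var)

theorem trR : TrR := by
  intro hChB hChM hVarS hReach hMeanS hVPl hVBad hNC hVBadL hGeoR hRefl hGapI hGainP hGain0
    hLastK hXR3 hG1 hG3 N g M hM pf pl s₀ t₀ y z y' r c j hpf hpl hup hdn hall hgap hQv geo
    hs₀y hy't₀ htop hQ0 hc1 hc2 hcy hcy' hcmin ht₀c hj1 hj2 hj3 hj4
  obtain ⟨Q₀, hQ₀⟩ : ∃ Q₀, Q₀ = M y + M y' - M z := ⟨_, rfl⟩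
  rw [← hQ₀] at hQ0
  have hgM : ∀ p, Pk N g M p → g p = M p := fun p hp =>
    le_antisymm (Pool.Agent.Helper37_EM.g_le hM hp.1) hp.2.1
  have hplN : pl ≤ N := hpl.1
  obtain ⟨hpfs, hs₀pl⟩ := hall s₀ hgap.left
  obtain ⟨hpft, ht₀pl⟩ := hall t₀ hgap.right
  have hst := hgap.lt
  have hyz := geo.yz
  have hzy' := geo.zz
  have hrz := geo.rz
  have hrN := geo.rN
  have hcj : c < j := by omega
  -- chains between good peaks away from the bad gap
  have hch : ∀ a b : ℕ, Pk N g M a → Pk N g M b → a ≤ b → (b ≤ s₀ ∨ t₀ ≤ a) →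
      Ch N g a b (var M a b) := by
    intro a b ha hb hab hcase
    refine hChM hChB N g M hM a b ha hb hab fun p p' hG hp hp' => ?_
    have hlt := hG.lt
    obtain ⟨v, hv1, hv2, hv3⟩ := hQv p p' hG (by rcases hcase with h | h <;> omega)
    have hb1 := hb.1
    exact hVPl hReach hMeanS N g M hM p p' v _ hv1 hv2 (by omega) hv3.ge
  have hvar : var M s₀ t₀ = g s₀ + g t₀ - 2 * Q₀ := by
    have h1 : (g s₀ + g t₀ - var M s₀ t₀) / 2 = Q₀ := hQ0
    linarith
  -- the total variation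
  have htot : var M 0 N + M 0 + M N = g pf + var M pf pl + g pl := by
    have h1 := hVarS.1 M 0 pf (Nat.zero_le _) hup
    have h2 := hVarS.2.1 M pl N hplN hdn
    have h3 := Pool.Agent.Helper37_EM.var_add (u := M) (show 0 ≤ pf by omega) (show pf ≤ N from hpf.1)
    have h4 := Pool.Agent.Helper37_EM.var_add (u := M) (show pf ≤ pl by omega) hplN
    rw [hgM pf hpf, hgM pl hpl]
    linarith
  have hsp : var M pf pl = var M pf s₀ + var M s₀ t₀ + var M t₀ pl := by
    have h3 := Pool.Agent.Helper37_EM.var_add (u := M) hpfs (show s₀ ≤ pl by omega)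
    have h4 := Pool.Agent.Helper37_EM.var_add (u := M) hst.le ht₀pl
    linarith
  have hL : Ch N g pf s₀ (var M pf s₀) := hch pf s₀ hpf hgap.left hpfs (Or.inl le_rfl)
  have happ := (hChB N g).1
  have hone := (hChB N g).2.2.2.2
  -- the bad gap with the number Q
  have hmid : ∀ Q, M z ≤ Q → Ch N g s₀ t₀ (g s₀ + g t₀ - 2 * Q) := fun Q hQ =>
    hone s₀ t₀ Q hst (hVPl hReach hMeanS N g M hM s₀ t₀ z Q (by omega) (by omega) (by omega) hQ)
  -- the number Q₀ for a part which contains c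
  have hbad : ∀ p p' : ℕ, p ≤ c → c ≤ p' → p' ≤ N → VG N g p p' Q₀ := by
    intro p p' h1 h2 h3
    rw [hQ₀]
    exact hVBad hVBadL hGeoR hRefl hGapI hGainP hGain0 hLastK hXR3 hG1 hG3 N g M hM
      y z y' r c y y' p p' ⟨geo, htop, hc1, hc2, hcy, hcy', hcmin, geo, le_rfl, le_rfl, h1, h2,
        h3, Or.inl rfl, Or.inl rfl⟩
  rcases Nat.lt_or_ge pl c with hend | hcpl
  · have hR : Ch N g t₀ pl (var M t₀ pl) := hch t₀ pl hgap.right hpl ht₀pl (Or.inr le_rfl)
    have hX : Ch N g pl j (g pl + g j - 2 * Q₀) :=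
      hone pl j Q₀ (by omega) (hbad pl j hend.le hcj.le (by omega))
    have h1 := happ _ _ _ _ _ hL (hmid (g j) hj4.le)
    have h2 := happ _ _ _ _ _ h1 hR
    have h3 := happ _ _ _ _ _ h2 hX
    refine ⟨j, _, by omega, h3, ?_⟩
    rw [htot, hsp, hvar]
    ring
  · -- the gap which contains c
    have hex : ∃ t, Pk N g M t ∧ c ≤ t := ⟨pl, hpl, hcpl⟩
    classical
    obtain ⟨t, ht, htc, htmin⟩ : ∃ t, Pk N g M t ∧ c ≤ t ∧ ∀ v, Pk N g M v → c ≤ v → t ≤ v :=
      ⟨Nat.find hex, (Nat.find_spec hex).1, (Nat.find_spec hex).2, fun v hv hcv =>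
        Nat.find_min' hex ⟨hv, hcv⟩⟩
    obtain ⟨s, hs, hsc, hsmax⟩ : ∃ s, Pk N g M s ∧ s < c ∧ ∀ v, Pk N g M v → v < c → v ≤ s := by
      refine ⟨Nat.findGreatest (fun p => Pk N g M p) (c - 1),
        Nat.findGreatest_spec (P := fun p => Pk N g M p) (show t₀ ≤ c - 1 by omega) hgap.right,
        ?_, fun v hv hvc => Nat.le_findGreatest (show v ≤ c - 1 by omega) hv⟩
      have h1 := Nat.findGreatest_le (P := fun p => Pk N g M p) (c - 1)
      omega
    have ht₀s : t₀ ≤ s := hsmax t₀ hgap.right ht₀c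
    have htpl : t ≤ pl := htmin pl hpl hcpl
    have hG : Gap N g M s t := ⟨hs, ht, by omega, fun v hv1 hv2 hv3 => by
      rcases Nat.lt_or_ge v c with h | h
      · have := hsmax v hv3 h
        omega
      · have := htmin v hv3 h
        omega⟩
    obtain ⟨v, hv1, hv2, hv3⟩ := hQv s t hG (by omega)
    have hvst : var M s t = g s + g t - 2 * M v := by
      have h1 : (g s + g t - var M s t) / 2 = M v := hv3
      linarith
    have hsp2 : var M t₀ pl = var M t₀ s + var M s t + var M t pl := by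
      have h3 := Pool.Agent.Helper37_EM.var_add (u := M) ht₀s (show s ≤ pl by omega)
      have h4 := Pool.Agent.Helper37_EM.var_add (u := M) (show s ≤ t by omega) htpl
      linarith
    have hR1 : Ch N g t₀ s (var M t₀ s) := hch t₀ s hgap.right hs ht₀s (Or.inr le_rfl)
    have hR2 : Ch N g t pl (var M t pl) := hch t pl ht hpl htpl (Or.inr (by omega))
    rcases le_or_gt (M z) (M v) with hzv | hvz
    · have h1 := happ _ _ _ _ _ hL (hmid (M v) hzv)
      have h2 := happ _ _ _ _ _ h1 hR1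
      have h3 := happ _ _ _ _ _ h2 (hone s t Q₀ (by omega) (hbad s t (by omega) htc (by omega)))
      have h4 := happ _ _ _ _ _ h3 hR2
      refine ⟨pl, _, hplN, h4, ?_⟩
      rw [htot, hsp, hvar, hsp2, hvst]
      ring
    · by_cases hA : v ≤ z + r ∧ v ≤ y + r
      · have hgeo1 : Geo N g M y z v r := ⟨hyz, by omega, hrz, hrN, geo.hy, hA.1, hA.2, geo.opt,
          geo.My, hvz⟩
        have hVG : VG N g s t (M y + M v - M z) :=
          hVBad hVBadL hGeoR hRefl hGapI hGainP hGain0 hLastK hXR3 hG1 hG3 N g M hM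
            y z y' r c y v s t ⟨geo, htop, hc1, hc2, hcy, hcy', hcmin, hgeo1, le_rfl, by omega,
              by omega, htc, by omega, Or.inl rfl, Or.inr ⟨hv1, hv2⟩⟩
        have hVG0 : VG N g s₀ t₀ (M y') :=
          hVPl hReach hMeanS N g M hM s₀ t₀ y' (M y') (by omega) hy't₀ (by omega) le_rfl
        have h1 := happ _ _ _ _ _ hL (hone s₀ t₀ (M y') hst hVG0)
        have h2 := happ _ _ _ _ _ h1 hR1
        have h3 := happ _ _ _ _ _ h2 (hone s t _ (by omega) hVG)
        have h4 := happ _ _ _ _ _ h3 hR2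
        refine ⟨pl, _, hplN, h4, ?_⟩
        rw [htot, hsp, hvar, hsp2, hvst, hQ₀]
        ring
      · obtain ⟨s', hs1, hs2, hs3⟩ : ∃ s', c < s' ∧ s' < v ∧ M z ≤ g s' := by
          rcases Nat.lt_or_ge (z + r) v with h | h
          · exact ⟨j, hcj, by omega, hj4.le⟩
          · obtain ⟨s', h1, h2, h3⟩ := hNC N g M hM y z v r hyz (by omega) hrz hrN geo.hy h
              (by
                by_contra h'
                exact hA ⟨h, not_lt.1 h'⟩) geo.opt geo.My hvz
            exact ⟨s', by omega, by omega, h3.le⟩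
        have h1 := happ _ _ _ _ _ hL (hmid (g s') hs3)
        have h2 := happ _ _ _ _ _ h1 hR1
        have h3 := happ _ _ _ _ _ h2 (hone s s' Q₀ (by omega) (hbad s s' (by omega) (by omega)
          (by omega)))
        have h4 := happ _ _ _ _ _ h3 (hone s' t (M v) (by omega)
          (hVPl hReach hMeanS N g M hM s' t v (M v) (by omega) hv2 (by omega) le_rfl))
        have h5 := happ _ _ _ _ _ h4 hR2
        refine ⟨pl, _, hplN, h5, ?_⟩
        rw [htot, hsp, hvar, hsp2, hvst]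
        ring

end Pool.Agent.TMX.H89
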